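import Pool.Agent.Helper13.JS.St

/-!
# Project JS (MP_924f75), module CG: general centre, all lengths
-/

set_option autoImplicit false

namespace Pool.Agent.Helper92.JS

open Finset ArithmeticFunction Pool.Agent.Helper13.JS
open Pool.Agent.Helper13.JC (Cov E1 offSum)

/-- Cutting a covering, with the difference `a p - b` kept. -/
theorem cut2 {x y N : ℕ} {a : ℕ → ℤ} (h : Cov x y a) (b : ℕ) (hb : b ≤ y) (hN : N ≤ y) :
    ∃ (a' : ℕ → ℤ) (b' : ℕ), b' ≤ N ∧ Cov x N a' ∧ ∀ p : ℕ, a' p - b' = a p - b := by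
  set k := min b (y - N) with hk
  have hkb : k ≤ b := min_le_left _ _
  have hkN : k ≤ y - N := min_le_right _ _
  refine ⟨fun p => a p - k, b - k, ?_, ?_, ?_⟩
  · rcases le_total b (y - N) with h1 | h1
    · have : k = b := min_eq_left h1
      omega
    · have : k = y - N := min_eq_right h1
      omega
  · intro n hn1 hn2
    obtain ⟨p, hp, hpx, hc⟩ := h (k + n) (by omega) (by omega)
    refine ⟨p, hp, hpx, ?_⟩
    have h3 := Int.modEq_iff_dvd.1 hc
    rw [Int.modEq_iff_dvd]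
    push_cast at h3
    have e : a p - k - n = a p - (k + n) := by ring
    rw [e]
    exact h3
  · intro p
    show a p - k - ((b - k : ℕ) : ℤ) = a p - b
    rw [Nat.cast_sub hkb]
    ring

theorem dvd_sub_iff (a b : ℤ) (p : ℤ) : p ∣ a - b ↔ a ≡ b [ZMOD p] := by
  rw [Int.modEq_comm, Int.modEq_iff_dvd]

theorem On_congr {x : ℕ} {a a' : ℕ → ℤ} (h : ∀ p : ℕ, (p : ℤ) ∣ a p ↔ (p : ℤ) ∣ a' p) :
    On x a = On x a' := by
  classical
  unfold On
  ext p
  simp only [Finset.mem_filter, h]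

theorem offSum_congr {a a' : ℕ → ℤ} {b b' : ℤ}
    (h : ∀ p : ℕ, a p ≡ b [ZMOD (p : ℤ)] ↔ a' p ≡ b' [ZMOD (p : ℤ)]) (u v : ℝ) :
    offSum a b u v = offSum a' b' u v := by
  classical
  unfold offSum
  refine Finset.sum_congr ?_ fun _ _ => rfl
  ext p
  simp only [Finset.mem_filter, h]

/-- the bound for `y ≤ x²` -/
theorem mid {κ c₁ ε κ₁ C₀ x₁ : ℝ}
    (hCO : ∀ (x y : ℕ) (a : ℕ → ℤ) (u : ℝ),
      x₁ ≤ x → x ≤ y → y ≤ x ^ 2 → Cov x y a → (x : ℝ) ^ κ₁ ≤ u → u ≤ (x : ℝ) ^ (1 / 4 : ℝ) →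
      Dens x a c₁ → ms (On x a) u (u ^ 2) ≤ ε →
      Real.log ((y : ℝ) / x) ≤ C₀ * (1 + (∑ p ∈ E1 x ((x : ℝ) ^ κ) a, 1 / (p : ℝ)) * Real.log x))
    (x y : ℕ) (a : ℕ → ℤ) (b : ℕ) (u : ℝ) (hx : x₁ ≤ x) (hx2 : 2 ≤ x) (hcov : Cov x y a)
    (hb : b ≤ y) (hu1 : (x : ℝ) ^ κ₁ ≤ u) (hu2 : u ≤ (x : ℝ) ^ (1 / 4 : ℝ))
    (hD : Dens x (fun p => a p - b) c₁) (hms : ms (On x (fun p => a p - b)) u (u ^ 2) ≤ ε)
    (hy : 64 * x ≤ y) (hyx : y ≤ x ^ 2) :
    (y : ℝ) ≤ x * Real.exp ((C₀ + 2) * (1 + offSum a b ((x : ℝ) ^ κ) x * Real.log x)) := by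
  obtain ⟨y', a', hcov', hy'y, hyy', hdv⟩ := Pool.Agent.Helper13.JC.shift hcov b hb
  have hOn : On x a' = On x (fun p => a p - b) := by
    refine On_congr fun p => ?_
    rw [hdv p, dvd_sub_iff]
  have hD' : Dens x a' c₁ := by
    intro N h1 h2
    rw [hOn]
    exact hD N h1 h2
  have hms' : ms (On x a') u (u ^ 2) ≤ ε := by rw [hOn]; exact hms
  have hxy' : x ≤ y' := by omega
  have h1 := hCO x y' a' u hx hxy' (hy'y.trans hyx) hcov' hu1 hu2 hD' hms'
  rw [Pool.Agent.Helper13.JC.sum_E1 hdv] at h1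
  set S := offSum a b ((x : ℝ) ^ κ) x with hS
  have hS0 : 0 ≤ S := Pool.Agent.Helper13.JC.offSum_nonneg _ _ _ _
  have hxpos : (0 : ℝ) < x := by
    have : (2 : ℝ) ≤ x := by exact_mod_cast hx2
    linarith
  have hlx : 0 < Real.log (x : ℝ) := Real.log_pos (by
    have : (2 : ℝ) ≤ x := by exact_mod_cast hx2
    linarith)
  have hy'pos : (0 : ℝ) < y' := by
    have : (x : ℝ) ≤ y' := by exact_mod_cast hxy'
    linarith
  have h2 : (y' : ℝ) ≤ x * Real.exp (C₀ * (1 + S * Real.log x)) := by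
    have h3 := Real.exp_le_exp.2 h1
    rw [Real.exp_log (by positivity), div_le_iff₀ hxpos] at h3
    linarith
  have h3 : (y : ℝ) ≤ 3 * y' := by
    have h4 : y ≤ 3 * y' := by omega
    exact_mod_cast h4
  have hSL : 0 ≤ S * Real.log x := by positivity
  have h4 : (3 : ℝ) ≤ Real.exp 2 := by
    have := Real.add_one_le_exp (2 : ℝ)
    linarith
  calc (y : ℝ) ≤ 3 * (x * Real.exp (C₀ * (1 + S * Real.log x))) := by linarith
    _ ≤ Real.exp 2 * (x * Real.exp (C₀ * (1 + S * Real.log x))) :=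
        mul_le_mul_of_nonneg_right h4 (by positivity)
    _ = x * Real.exp (2 + C₀ * (1 + S * Real.log x)) := by
        rw [Real.exp_add]
        ring
    _ ≤ x * Real.exp ((C₀ + 2) * (1 + S * Real.log x)) := by
        refine mul_le_mul_of_nonneg_left (Real.exp_le_exp.2 ?_) hxpos.le
        nlinarith

theorem hCG (hCO : StCO) (hPoly : StPoly) : StCG := by
  obtain ⟨κ, hκ, hκ4, hCO⟩ := hCO
  obtain ⟨A, x₂, hA, hx₂, hpoly⟩ := hPoly
  refine ⟨κ, hκ, hκ4, fun c₁ hc₁ => ?_⟩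
  obtain ⟨ε, hε, hCO⟩ := hCO c₁ hc₁
  refine ⟨ε, hε, fun κ₁ hκ₁ hκ₁4 => ?_⟩
  obtain ⟨C₀, x₁, hC₀, hx₁, hCO⟩ := hCO κ₁ hκ₁ hκ₁4
  set C' : ℝ := C₀ + 2 with hC'
  have hC'0 : 0 < C' := by positivity
  set C : ℝ := C' + 2 * C' * A + 5 with hC
  have hC0 : 0 < C := by positivity
  refine ⟨C, max (max x₁ x₂) (max 65 (Real.exp (2 * C'))), hC0,
    hx₁.trans ((le_max_left _ _).trans (le_max_left _ _)), ?_⟩
  intro x y a b u hx hcov hb hu1 hu2 hD hms
  have hxx1 : x₁ ≤ (x : ℝ) := ((le_max_left _ _).trans (le_max_left _ _)).trans hx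
  have hxx2 : x₂ ≤ (x : ℝ) := ((le_max_right _ _).trans (le_max_left _ _)).trans hx
  have hx65 : (65 : ℝ) ≤ x := ((le_max_left _ _).trans (le_max_right _ _)).trans hx
  have hxe : Real.exp (2 * C') ≤ (x : ℝ) := ((le_max_right _ _).trans (le_max_right _ _)).trans hx
  have hx65' : 65 ≤ x := by exact_mod_cast hx65
  have hxpos : (0 : ℝ) < x := by linarith
  have hlx : 0 < Real.log (x : ℝ) := Real.log_pos (by linarith)
  have hlx2 : 2 * C' ≤ Real.log (x : ℝ) := by
    rw [Real.le_log_iff_exp_le hxpos]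
    exact hxe
  set S := offSum a b ((x : ℝ) ^ κ) x with hS
  have hS0 : 0 ≤ S := Pool.Agent.Helper13.JC.offSum_nonneg _ _ _ _
  have hSL : 0 ≤ S * Real.log x := by positivity
  rcases lt_or_ge y (64 * x) with hy | hy
  · -- short
    have h1 : (y : ℝ) ≤ 64 * x := by exact_mod_cast hy.le
    have h2 : (64 : ℝ) ≤ Real.exp 5 := by
      have e1 : Real.exp 5 = Real.exp 1 ^ 5 := by
        rw [← Real.exp_nat_mul]
        norm_num
      have e2 : (2.7 : ℝ) ≤ Real.exp 1 := by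
        have := Real.exp_one_gt_d9
        linarith
      rw [e1]
      calc (64 : ℝ) ≤ 2.7 ^ 5 := by norm_num
        _ ≤ Real.exp 1 ^ 5 := pow_le_pow_left₀ (by norm_num) e2 5
    have h3 : Real.exp 5 ≤ Real.exp (C * (1 + S * Real.log x)) := by
      refine Real.exp_le_exp.2 ?_
      have e1 : 5 ≤ C := by
        have : 0 ≤ 2 * C' * A := by positivity
        linarith
      nlinarith
    have h4 : (64 : ℝ) ≤ Real.exp (C * (1 + S * Real.log x)) := h2.trans h3
    nlinarith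
  rcases le_or_gt y (x ^ 2) with hyx | hyx
  · -- up to `x²`
    have h1 := mid hCO x y a b u hxx1 (by omega) hcov hb hu1 hu2 hD hms hy hyx
    refine h1.trans (mul_le_mul_of_nonneg_left (Real.exp_le_exp.2 ?_) hxpos.le)
    refine mul_le_mul_of_nonneg_right ?_ (by linarith)
    have : 0 ≤ 2 * C' * A := by positivity
    linarith
  · -- very long
    obtain ⟨a', b', hb', hcov', hab⟩ := cut2 hcov b hb hyx.le
    have hfun : (fun p => a' p - (b' : ℤ)) = fun p => a p - (b : ℤ) := funext hab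
    have h64 : 64 * x ≤ x ^ 2 := by nlinarith
    have h1 := mid hCO x (x ^ 2) a' b' u hxx1 (by omega) hcov' hb' hu1 hu2
      (by rw [hfun]; exact hD) (by rw [hfun]; exact hms) h64 le_rfl
    have hoff : offSum a' b' ((x : ℝ) ^ κ) x = S := by
      refine offSum_congr (fun p => ?_) _ _
      rw [← dvd_sub_iff, ← dvd_sub_iff, hab]
    rw [hoff] at h1
    have h2 : Real.log x ≤ C' * (1 + S * Real.log x) := by
      have e1 : (x : ℝ) * x ≤ x * Real.exp (C' * (1 + S * Real.log x)) := by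
        have : ((x ^ 2 : ℕ) : ℝ) = x * x := by push_cast; ring
        rw [this] at h1
        exact h1
      have e2 : (x : ℝ) ≤ Real.exp (C' * (1 + S * Real.log x)) := le_of_mul_le_mul_left e1 hxpos
      have e3 := Real.log_le_log hxpos e2
      rwa [Real.log_exp] at e3
    have h3 : Real.log x ≤ 2 * C' * (S * Real.log x) := by nlinarith
    have h4 := hpoly x y hxx2 a hcov
    refine h4.trans ?_
    have h5 : (x : ℝ) ^ A = x * Real.exp ((A - 1) * Real.log x) := by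
      rw [Real.rpow_def_of_pos hxpos]
      nth_rewrite 2 [← Real.exp_log hxpos]
      rw [← Real.exp_add]
      congr 1
      ring
    rw [h5]
    refine mul_le_mul_of_nonneg_left (Real.exp_le_exp.2 ?_) hxpos.le
    have h6 : (A - 1) * Real.log x ≤ (A - 1) * (2 * C' * (S * Real.log x)) :=
      mul_le_mul_of_nonneg_left h3 (by linarith)
    have h7 : 0 ≤ 2 * C' * (S * Real.log x) := by positivity
    have h8 : (A - 1) * (2 * C' * (S * Real.log x)) ≤ 2 * C' * A * (S * Real.log x) := by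
      nlinarith
    have h9 : 2 * C' * A * (S * Real.log x) ≤ C * (S * Real.log x) := by
      refine mul_le_mul_of_nonneg_right ?_ hSL
      linarith
    nlinarith

end Pool.Agent.Helper92.JS
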